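import Pool.Agent.Lib.H89.Ci.Assemble

set_option autoImplicit false

/-!
Smooth Brody hyperbolic complete intersections of low degree in every dimension.
-/

open Filter Topology
open MvPolynomial (coeff eval pderiv)
open scoped LinearAlgebra.Projectivization

namespace Pool.Agent.H89.Kept.CompleteIntersections

/-- A holomorphic map from the complex plane to projective space: near every point it is given by
analytic functions without common zero. -/
def IsHolomorphic {m : ℕ} (Φ : ℂ → ℙ ℂ (Fin m → ℂ)) : Prop :=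
  ∀ z₀ : ℂ, ∃ ψ : ℂ → Fin m → ℂ, (∀ i, AnalyticAt ℂ (fun z => ψ z i) z₀) ∧
    ∀ᶠ z in 𝓝 z₀, ∃ h : ψ z ≠ 0, Φ z = Projectivization.mk ℂ (ψ z) h

/-- The common zeros in projective space of homogeneous polynomials. -/
def zeroSet {m c : ℕ} (f : Fin c → MvPolynomial (Fin m) ℂ) : Set (ℙ ℂ (Fin m → ℂ)) :=
  {p | ∀ l, eval p.rep (f l) = 0}

/-- Brody hyperbolicity: holomorphic maps from the complex plane are constant. -/
def BrodyHyperbolic {m : ℕ} (X : Set (ℙ ℂ (Fin m → ℂ))) : Prop :=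
  ∀ Φ : ℂ → ℙ ℂ (Fin m → ℂ), IsHolomorphic Φ → (∀ z, Φ z ∈ X) → ∀ z w, Φ z = Φ w

/-- The Jacobian criterion: the gradients are linearly independent at all common zeros. -/
def IsSmoothCI {m c : ℕ} (f : Fin c → MvPolynomial (Fin m) ℂ) : Prop :=
  ∀ p ∈ zeroSet f, LinearIndependent ℂ fun l => (fun i => eval p.rep (pderiv i (f l)))

/-- Let `d 0, ..., d (c - 1) ≥ 1` be degrees such that there are pairwise disjoint sets `G j` of
indices, `j < n`, with `∑ l ∈ G j, (d l - 1) ≥ 4` for all `j ≥ 1` and `≥ 3` for `j = 0`. Then there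
is a nonempty open set of `c`-tuples of homogeneous polynomials of degrees `d l` in `n + 1 + c`
variables whose zero set in `ℙ ^ (n + c)` is a smooth complete intersection of dimension `n` and
Brody hyperbolic. -/
theorem result (n c : ℕ) (hn : 1 ≤ n) (d : Fin c → ℕ) (hd : ∀ l, 1 ≤ d l)
    (G : Fin n → Finset (Fin c)) (hG : ∀ i j, i ≠ j → Disjoint (G i) (G j))
    (h3 : ∀ j, 3 ≤ ∑ l ∈ G j, (d l - 1))
    (h4 : ∀ j : Fin n, (j : ℕ) ≠ 0 → 4 ≤ ∑ l ∈ G j, (d l - 1)) :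
    ∃ f₀ : Fin c → MvPolynomial (Fin (n + 1 + c)) ℂ, (∀ l, (f₀ l).IsHomogeneous (d l)) ∧
      ∃ ε > 0, ∀ f : Fin c → MvPolynomial (Fin (n + 1 + c)) ℂ, (∀ l, (f l).IsHomogeneous (d l)) →
        (∀ l s, ‖coeff s (f l) - coeff s (f₀ l)‖ < ε) →
        IsSmoothCI f ∧ BrodyHyperbolic (zeroSet f) := by
  obtain ⟨f₀, hf₀, ε, hε, h⟩ := Pool.Agent.H89.Ci.exists_hyp_open n c hn d hd G hG h3 h4
  refine ⟨f₀, hf₀, ε, hε, fun f hf hfc => ?_⟩
  obtain ⟨h1, h2⟩ := h f hf hfc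
  refine ⟨fun p hp => h1 p.rep p.rep_nonzero hp, fun Φ hΦ hΦX z w => ?_⟩
  have hhol : Pool.Agent.H89.Ci.Hol fun z => (Φ z).rep := by
    intro z₀
    obtain ⟨ψ, hψ, hψΦ⟩ := hΦ z₀
    refine ⟨ψ, hψ, hψΦ.self_of_nhds.choose, ?_⟩
    filter_upwards [hψΦ] with z hz
    obtain ⟨hne, hz⟩ := hz
    obtain ⟨a, ha⟩ := Projectivization.exists_smul_eq_mk_rep ℂ (ψ z) hne
    refine ⟨(a : ℂ), a.ne_zero, ?_⟩
    rw [hz, ← ha]
    rfl
  obtain ⟨b, hb, hbe⟩ := h2 _ hhol (fun z l => hΦX z l) z w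
  have h5 : (Φ z).rep = b • (Φ w).rep := hbe
  rw [← Projectivization.mk_rep (Φ z), ← Projectivization.mk_rep (Φ w),
    Projectivization.mk_eq_mk_iff']
  exact ⟨b, h5.symm⟩

end Pool.Agent.H89.Kept.CompleteIntersections
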