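import Pool.Agent.Lib.H89.Arr.Defs
import Pool.Agent.Lib.H89.Arr.Main

set_option autoImplicit false

/-!
Kummer covers of projective varieties, branched along hyperplane sections such that every line
tangent to the variety at one of its points meets the arrangement in many distinct points, are
pseudo-Brody hyperbolic.
-/

open MvPolynomial Pool.Agent.H89.KArr

namespace Pool.Agent.H89.Kept.KummerArrangements

/-- For every `M ≥ 1` there is a `k₀` such that: let `Y` (with ideal `I`) be an irreducible closed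
subset of `ℙᴹ` which is not contained in a hyperplane, let the `h i` be linear forms without common
zero, let `y₀` be a point of `Y` such that every line tangent to `Y` at `y₀` meets at least `k₀` of
the hyperplanes `h i = 0` whose section with `Y` is reduced in distinct points, and `e ≥ 2`. Then
every closed subset `X` of the Kummer cover `x i ^ e = h i (y)`, `y ∈ Y`, that maps onto `Y` is
pseudo-Brody hyperbolic. -/
theorem result (M : ℕ) (hM : 1 ≤ M) : ∃ k₀ : ℕ, ∀ (ι : Type) [Fintype ι]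
    (h : ι → Fin (M + 1) → ℂ) (I : Ideal (MvPolynomial (Fin (M + 1)) ℂ)), IsVarietyIdeal I →
    (∀ y : Fin (M + 1) → ℂ, (∀ i, val (h i) y = 0) → y = 0) →
    (∃ y₀ ∈ points I, ∀ v, IsTangent I y₀ v → (∀ c : ℂ, v ≠ c • y₀) → MeetsIn I h y₀ v k₀) →
    ∀ e : ℕ, 2 ≤ e → ∀ X ⊆ kummerCover e I h, (∀ x ∈ X, ∀ c : ℂ, c ≠ 0 → c • x ∈ X) →
      (∀ y ∈ points I, ∃ x ∈ X, ∀ i, x i ^ e = val (h i) y) → PseudoBrody X := by
  obtain ⟨k₀, hk₀⟩ := Pool.Agent.H89.Arr.pseudoBrody_arr M hM
  refine ⟨k₀, fun ι _ h I hI hspan hlines e he X hX hXc hXs => ?_⟩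
  obtain ⟨y₀, ⟨hy₀, hy₀I⟩, hline⟩ := hlines
  have hhom : @Ideal.IsHomogeneous ℕ (Submodule ℂ (MvPolynomial (Fin (M + 1)) ℂ))
      (MvPolynomial (Fin (M + 1)) ℂ) _ _ _ (homogeneousSubmodule (Fin (M + 1)) ℂ) _ _
      MvPolynomial.gradedAlgebra I := by
    intro i F hF
    change ((decomposition.decompose' F i : homogeneousSubmodule (Fin (M + 1)) ℂ i) :
      MvPolynomial (Fin (M + 1)) ℂ) ∈ I
    rw [decomposition.decompose'_apply]
    exact hI.homogeneous F hF i
  obtain ⟨T, hT, hTx, hTe⟩ := hk₀ ι h I hI.prime hhom hI.nondegenerate hspan y₀ hy₀ hy₀I hline e he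
    X (fun x hx => by
      obtain ⟨h1, y, hy, h2⟩ := hX hx
      exact ⟨h1, y, hy.2, h2⟩) hXc (fun y hy hyI => hXs y ⟨hy, hyI⟩)
  exact ⟨T, hT, hTx, fun x hx hxX => hTe x ⟨hx.holomorphic, hx.ne_zero, hx.nonconstant⟩ hxX⟩

end Pool.Agent.H89.Kept.KummerArrangements
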