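import Pool.Agent.Lib.H89.KummerPB

set_option autoImplicit false

/-!
Kummer covers of `ℙⁿ` (complete intersections of diagonal hypersurfaces of degree `e`) are
pseudo-Brody hyperbolic when sufficiently many of the branch hyperplanes, seen as points of the
dual projective space, lie on an irreducible curve of degree `q`: `k (e - 1) > 2 e q` of them are
enough, for every `e ≥ 2`.
-/

open MvPolynomial Pool.Agent.H89.Kummer

namespace Pool.Agent.H89.Kept.KummerCovers

/-- Let `I` be the ideal of an irreducible curve of degree `q` in the dual projective space, let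
`h 0, …, h (N - 1)` be linear forms on `ℂⁿ⁺¹` given by their coefficients, and let
`h (κ 0), …, h (κ (k - 1))` be nonzero, pairwise not proportional and on the curve.  If
`k (e - 1) > 2 e q`, then the subset of projective space of the points `x` such that
`x i ^ e = h i (y)` for some `y` is pseudo-Brody hyperbolic. -/
theorem result {n k q e N : ℕ} {I : Ideal (MvPolynomial (Fin (n + 1)) ℂ)} (hI : IsCurve I q)
    (h : Fin N → Fin (n + 1) → ℂ) (κ : Fin k → Fin N) (hκ0 : ∀ i, h (κ i) ≠ 0)
    (hκI : ∀ i, ∀ g ∈ I, eval (h (κ i)) g = 0)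
    (hκ : ∀ i j, i ≠ j → ∀ a : ℂ, h (κ i) ≠ a • h (κ j)) (hk : 2 * e * q < (e - 1) * k) :
    PseudoBrody (kummer e h) :=
  pseudoBrody_kummer hI h κ hκ0 hκI hκ hk

end Pool.Agent.H89.Kept.KummerCovers
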