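import Pool.Agent.Lib.H89.ReflCurve

set_option autoImplicit false

/-!
Closed subvarieties `X` of weighted projective spaces `P(w)` defined by equations whose degrees
add up to at most the sum of the weights (so `K_X ≤ 0` by adjunction when `X` is a normal complete
intersection) and which are invariant under reflections of small order are not pseudo-Brody
hyperbolic.
-/

open MvPolynomial

namespace Pool.Agent.H89.Kept.Reflections

open Pool.Agent.H89 Pool.Agent.H89.WProj Pool.Agent.H89.Refl

/-- `S` is the set of mirrors of one of four kinds of reflections preserving the equations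
`f j`: a coordinate `x a` occurring only with exponents divisible by 3, or only with exponents
divisible by 4, or a coordinate of weight at least 2 occurring only with even exponents, or two
coordinates both occurring only with even exponents. -/
def HasReflections {n r : ℕ} (w : Fin n → ℕ) (f : Fin r → MvPolynomial (Fin n) ℂ)
    (S : Finset (Fin n)) : Prop :=
  (∃ a, S = {a} ∧ ∀ j, ∀ m ∈ (f j).support, 3 ∣ m a) ∨
  (∃ a, S = {a} ∧ ∀ j, ∀ m ∈ (f j).support, 4 ∣ m a) ∨
  (∃ a, S = {a} ∧ 2 ≤ w a ∧ ∀ j, ∀ m ∈ (f j).support, 2 ∣ m a) ∨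
  (∃ a b, a ≠ b ∧ S = {a, b} ∧ ∀ j, ∀ m ∈ (f j).support, 2 ∣ m a ∧ 2 ∣ m b)

lemma descend {n : ℕ} {w e : Fin n → ℕ} {d : ℕ}
    {G : MvPolynomial (Fin n) ℂ} (hG : G.IsWeightedHomogeneous w d)
    (hdiv : ∀ m ∈ G.support, ∀ i, e i ∣ m i) :
    ∃ f : MvPolynomial (Fin n) ℂ, f.IsWeightedHomogeneous (fun i => e i * w i) d ∧
      ∀ x, eval x G = eval (fun i => x i ^ e i) f := by
  classical
  refine ⟨∑ m ∈ G.support, monomial (Finsupp.equivFunOnFinite.symm fun i => m i / e i)
    (G.coeff m), ?_, ?_⟩
  · apply IsWeightedHomogeneous.sum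
    intro m hm
    apply isWeightedHomogeneous_monomial
    rw [Finsupp.weight_apply, Finsupp.sum_fintype _ _ (by simp), ← weight_eq hG hm]
    apply Finset.sum_congr rfl
    intro i _
    simp only [Finsupp.equivFunOnFinite_symm_apply_apply, smul_eq_mul]
    rw [← mul_assoc, Nat.div_mul_cancel (hdiv m hm i)]
  · intro x
    rw [eval_eq_sum_support, map_sum]
    apply Finset.sum_congr rfl
    intro m hm
    rw [eval_monomial, Finsupp.prod_fintype _ _ (by simp)]
    congr 1
    apply Finset.prod_congr rfl
    intro i _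
    simp only [Finsupp.equivFunOnFinite_symm_apply_apply]
    rw [← pow_mul, Nat.mul_div_cancel' (hdiv m hm i)]

/-- the curve through a point, with the mirrors as in `HasReflections` -/
theorem curve_through_point {n r : ℕ} (w : Fin n → ℕ) (hw : ∀ i, 0 < w i)
    (d : Fin r → ℕ) (f : Fin r → MvPolynomial (Fin n) ℂ)
    (hf : ∀ j, (f j).IsWeightedHomogeneous w (d j)) (hd : ∑ j, d j ≤ ∑ i, w i)
    (S : Finset (Fin n)) (hS : HasReflections w f S)
    (p : Fin n → ℂ) (hp : ∀ j, eval p (f j) = 0) (hpS : ∀ a ∈ S, p a ≠ 0)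
    (hgcd : ∀ q : ℕ, (∀ i, i ∉ S → p i ≠ 0 → q ∣ w i) → q = 1) :
    ∃ F : ℂ → Fin n → ℂ, IsEntireCurve w (zeroSet f) F ∧ F 0 = p := by
  classical
  obtain ⟨i₀, hi₀S, hi₀⟩ : ∃ i, i ∉ S ∧ p i ≠ 0 := by
    by_contra hcon
    push Not at hcon
    have := hgcd 0 (fun i hi hpi => absurd (hcon i hi) hpi)
    exact absurd this (by norm_num)
  -- common part: all data apart from the orbifold points
  have main : ∀ (k : ℕ) (L : Type) [Fintype L] (ν κ : L → ℕ) (g : L → Fin n) (c : Fin n → ℕ),
      0 < k → (∀ l, g l ∈ S) → (∀ l, 0 < κ l) → (∀ l, ν l * κ l = k) →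
      (∀ j, ∀ m ∈ (f j).support, ∀ i ∈ S, k ∣ m i) →
      (∀ i, (if i ∈ S then k else 1) * c i =
        ∑ l ∈ Finset.univ.filter (fun l => g l = i), κ l) →
      (∀ i, c i ≤ w i) → HasOrbi ν → ∑ i, c i + 2 ≤ Fintype.card L →
      ∃ F : ℂ → Fin n → ℂ, IsEntireCurve w (zeroSet f) F ∧ F 0 = p := by
    intro k L _ ν κ g c hk hgS hκ hνκ hdiv hc hcw horb hL
    have hdesc := fun j => descend (e := fun i => if i ∈ S then k else 1) (hf j) (by
      intro m hm i
      split_ifs with hi
      · exact hdiv j m hm i hi
      · exact one_dvd _)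
    choose f' hf' hff' using hdesc
    refine curve_through w c (fun i => if i ∈ S then k else 1) κ g p hw ?_ ν hκ ?_ hc hcw horb d
      f' hf' f (fun j => ⟨d j, hf j⟩) hff' hd hL hp (fun l => hpS _ (hgS l)) i₀ hi₀ ?_ ?_ ?_
    · intro i
      split_ifs
      · exact hk
      · exact one_pos
    · intro l
      simp only [hgS l, if_true]
      exact hνκ l
    · simp only [hi₀S, if_false]
    · intro l h
      exact hi₀S (h ▸ hgS l)
    · intro q hq
      apply hgcd
      intro i hi hpi
      exact hq i (by simp only [hi, if_false]) hpi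
  rcases hS with ⟨a, rfl, h⟩ | ⟨a, rfl, h⟩ | ⟨a, rfl, hwa, h⟩ | ⟨a, b, hab, rfl, h⟩
  · refine main 3 (Fin 3) (fun _ => 3) (fun _ => 1) (fun _ => a) (fun i => if i = a then 1 else 0)
      (by norm_num) (by simp) (by simp) (by simp) ?_ ?_ ?_ orbi_333 ?_
    · intro j m hm i hi
      rw [Finset.mem_singleton.mp hi]
      exact h j m hm
    · intro i
      by_cases hi : i = a
      · subst hi; simp
      · simp [hi, Ne.symm hi]
    · intro i
      split_ifs
      · exact hw i
      · exact Nat.zero_le _
    · simp
  · refine main 4 (Fin 3) ![4, 4, 2] ![1, 1, 2] (fun _ => a) (fun i => if i = a then 1 else 0)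
      (by norm_num) (by simp) ?_ ?_ ?_ ?_ ?_ orbi_442 ?_
    · intro l; fin_cases l <;> simp
    · intro l; fin_cases l <;> simp
    · intro j m hm i hi
      rw [Finset.mem_singleton.mp hi]
      exact h j m hm
    · intro i
      by_cases hi : i = a
      · subst hi; simp [Fin.sum_univ_succ]
      · simp [hi, Ne.symm hi]
    · intro i
      split_ifs
      · exact hw i
      · exact Nat.zero_le _
    · simp
  · refine main 2 (Fin 4) (fun _ => 2) (fun _ => 1) (fun _ => a) (fun i => if i = a then 2 else 0)
      (by norm_num) (by simp) (by simp) (by simp) ?_ ?_ ?_ orbi_2222 ?_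
    · intro j m hm i hi
      rw [Finset.mem_singleton.mp hi]
      exact h j m hm
    · intro i
      by_cases hi : i = a
      · subst hi; simp
      · simp [hi, Ne.symm hi]
    · intro i
      split_ifs with hi
      · rw [hi]; exact hwa
      · exact Nat.zero_le _
    · simp
  · refine main 2 (Fin 4) (fun _ => 2) (fun _ => 1) ![a, a, b, b]
      (fun i => (if i = a then 1 else 0) + (if i = b then 1 else 0))
      (by norm_num) ?_ (by simp) (by simp) ?_ ?_ ?_ orbi_2222 ?_
    · intro l; fin_cases l <;> simp
    · intro j m hm i hi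
      rcases Finset.mem_insert.mp hi with h1 | h1
      · rw [h1]; exact (h j m hm).1
      · rw [Finset.mem_singleton.mp h1]; exact (h j m hm).2
    · intro i
      have hsum : ∑ l ∈ Finset.univ.filter (fun l => (![a, a, b, b] : Fin 4 → Fin n) l = i), 1 =
          (if a = i then 2 else 0) + (if b = i then 2 else 0) := by
        rw [Finset.sum_filter, Fin.sum_univ_four]
        simp only [Matrix.cons_val]
        by_cases h1 : a = i <;> by_cases h2 : b = i <;> simp [h1, h2]
      rw [hsum]
      by_cases hia : i = a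
      · subst hia; simp [hab, Ne.symm hab]
      · by_cases hib : i = b
        · subst hib; simp [hab, hia]
        · simp [hia, hib, Ne.symm hia, Ne.symm hib]
    · intro i
      have := hw i
      split_ifs with h1 h2
      · exact absurd (h1.symm.trans h2) hab
      all_goals omega
    · rw [Finset.sum_add_distrib]
      simp

/-- Let `X` be an irreducible closed subset of the weighted projective space `P(w)`, defined by
weighted homogeneous polynomials `f j` of degrees `d j` with `∑ d j ≤ ∑ w i`, such that (with a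
set `S` of one or two coordinates, none of them vanishing identically on `X`) either the coordinate
in `S` occurs in the `f j` only with exponents divisible by 3, or only with exponents divisible by
4, or it has weight at least 2 and occurs only with even exponents, or `S` consists of two
coordinates occurring only with even exponents.  Suppose that the weights of the coordinates
outside `S` which do not vanish identically on `X` have greatest common divisor 1.  Then `X` is
not pseudo-Brody hyperbolic. -/
theorem result {n r : ℕ} (w : Fin n → ℕ) (hw : ∀ i, 0 < w i)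
    (d : Fin r → ℕ) (f : Fin r → MvPolynomial (Fin n) ℂ)
    (hf : ∀ j, (f j).IsWeightedHomogeneous w (d j)) (hd : ∑ j, d j ≤ ∑ i, w i)
    (S : Finset (Fin n)) (hS : HasReflections w f S)
    (hX : IsIrred w (zeroSet f)) (hXS : ∀ a ∈ S, ∃ x ∈ zeroSet f, x a ≠ 0)
    (hgcd : ∀ q : ℕ, (∀ i, i ∉ S → (∃ x ∈ zeroSet f, x i ≠ 0) → q ∣ w i) → q = 1) :
    ¬ PseudoBrody w (zeroSet f) := by
  classical
  rintro ⟨T, hT, ⟨x, hx, g, hgT, hgx⟩, hF⟩
  -- the product of the coordinates not vanishing identically
  set I : Finset (Fin n) := Finset.univ.filter fun i => ∃ x ∈ zeroSet f, x i ≠ 0 with hI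
  have key : ∀ J : Finset (Fin n), J ⊆ I →
      IsWH w (g * ∏ i ∈ J, X i) ∧ ∃ x ∈ zeroSet f, eval x (g * ∏ i ∈ J, X i) ≠ 0 := by
    intro J
    induction J using Finset.induction_on with
    | empty =>
      intro _
      refine ⟨by simpa using hT g hgT, x, hx, by simpa using hgx⟩
    | insert i J hiJ ih =>
      intro hsub
      obtain ⟨h1, h2⟩ := ih ((Finset.subset_insert i J).trans hsub)
      have hi : i ∈ I := hsub (Finset.mem_insert_self i J)
      have hXi : IsWH w (X i : MvPolynomial (Fin n) ℂ) :=
        ⟨w i, isWeightedHomogeneous_X ℂ w i⟩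
      have hprod : g * ∏ i ∈ insert i J, X i =
          (g * ∏ i ∈ J, (X i : MvPolynomial (Fin n) ℂ)) * X i := by
        rw [Finset.prod_insert hiJ]; ring
      rw [hprod]
      constructor
      · obtain ⟨d1, hd1⟩ := h1
        obtain ⟨d2, hd2⟩ := hXi
        exact ⟨d1 + d2, hd1.mul hd2⟩
      · by_contra hcon
        push Not at hcon
        rcases hX.2 _ _ h1 hXi hcon with h | h
        · obtain ⟨y, hy, hy'⟩ := h2
          exact hy' (h y hy)
        · have : ∃ x ∈ zeroSet f, x i ≠ 0 := by simpa [hI] using hi
          obtain ⟨y, hy, hy'⟩ := this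
          apply hy'
          simpa using h y hy
  obtain ⟨-, p, hp, hpne⟩ := key I (Finset.Subset.refl I)
  rw [map_mul, map_prod] at hpne
  simp only [eval_X] at hpne
  have hgp : eval p g ≠ 0 := left_ne_zero_of_mul hpne
  have hpI : ∀ i, (∃ x ∈ zeroSet f, x i ≠ 0) → p i ≠ 0 := by
    intro i hi
    exact Finset.prod_ne_zero_iff.mp (right_ne_zero_of_mul hpne) i (by simpa [hI] using hi)
  obtain ⟨F, hFX, hF0⟩ := curve_through_point w hw d f hf hd S hS p hp.2
    (fun a ha => hpI a (hXS a ha)) (fun q hq => hgcd q fun i hi hxi => hq i hi (hpI i hxi))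
  have := hF F hFX 0 g hgT
  rw [hF0] at this
  exact hgp this

end Pool.Agent.H89.Kept.Reflections
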